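import Pool.Agent.X23.L3.Stm

/-! Part LT_PT2 of the project of helper23 (MP_688354_co). -/

set_option autoImplicit false

namespace Pool.Agent.X283.LT

open Pool.Agent.X23.L3

theorem lp_asymm (f q q' : Fin 3 → ℝ) (h1 : Pool.Agent.X23.L3.lp f (q - q')) (h2 : Pool.Agent.X23.L3.lp f (q' - q)) : False := by
  unfold Pool.Agent.X23.L3.lp at h1 h2
  simp only [dotProduct_sub, Pi.sub_apply] at h1 h2
  rcases h1 with h1 | ⟨h1, h1' | ⟨h1a, h1' | ⟨h1b, h1'⟩⟩⟩ <;>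
    rcases h2 with h2 | ⟨h2, h2' | ⟨h2a, h2' | ⟨h2b, h2'⟩⟩⟩ <;> linarith

theorem dot_le {f x : Fin 3 → ℝ} {C : ℝ} (h : ∀ k, |x k| ≤ C) : f ⬝ᵥ x ≤ ∑ k, |f k| * C := by
  unfold dotProduct
  refine Finset.sum_le_sum fun k _ => ?_
  calc f k * x k ≤ |f k * x k| := le_abs_self _
    _ = |f k| * |x k| := abs_mul _ _
    _ ≤ |f k| * C := mul_le_mul_of_nonneg_left (h k) (abs_nonneg _)

theorem bounded {n : ℕ} (X : Sys n) (S : Finset (Fin n))
    (hspan : ∀ v : Fin 3 → ℝ, (∀ s ∈ S, X.a s ⬝ᵥ v = 0) → v = 0) (T : ℝ) :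
    ∃ C : ℝ, ∀ x, (∀ s ∈ S, X.a s ⬝ᵥ x ≤ X.b s) → (-∑ s ∈ S, X.a s) ⬝ᵥ x ≤ T →
      ∀ k, |x k| ≤ C := by
  classical
  let L : (Fin 3 → ℝ) →ₗ[ℝ] (S → ℝ) :=
    { toFun := fun x s => X.a s ⬝ᵥ x
      map_add' := fun x y => by
        funext s
        simp [dotProduct_add]
      map_smul' := fun c x => by
        funext s
        simp [dotProduct_smul] }
  have hker : LinearMap.ker L = ⊥ := by
    rw [LinearMap.ker_eq_bot']
    intro v hv
    refine hspan v fun s hs => ?_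
    exact congrFun hv ⟨s, hs⟩
  obtain ⟨K, _, hK⟩ := L.exists_antilipschitzWith hker
  refine ⟨K * (|T| + ∑ s ∈ S, |X.b s|), fun x hx hT k => ?_⟩
  have h1 : ∀ s ∈ S, |X.a s ⬝ᵥ x| ≤ |T| + ∑ s ∈ S, |X.b s| := by
    intro s hs
    have h2 : (-∑ s ∈ S, X.a s) ⬝ᵥ x = -∑ s ∈ S, X.a s ⬝ᵥ x := by
      rw [neg_dotProduct, sum_dotProduct]
    rw [h2] at hT
    have h3 : ∑ s' ∈ S, X.a s' ⬝ᵥ x = X.a s ⬝ᵥ x + ∑ s' ∈ S.erase s, X.a s' ⬝ᵥ x :=
      (Finset.add_sum_erase S (fun s' => X.a s' ⬝ᵥ x) hs).symm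
    have h4 : ∑ s' ∈ S, |X.b s'| = |X.b s| + ∑ s' ∈ S.erase s, |X.b s'| :=
      (Finset.add_sum_erase S (fun s' => |X.b s'|) hs).symm
    have h5 : ∑ s' ∈ S.erase s, X.a s' ⬝ᵥ x ≤ ∑ s' ∈ S.erase s, |X.b s'| :=
      Finset.sum_le_sum fun s' hs' => (hx s' (Finset.mem_of_mem_erase hs')).trans (le_abs_self _)
    have h6 : 0 ≤ ∑ s' ∈ S.erase s, |X.b s'| := Finset.sum_nonneg fun _ _ => abs_nonneg _
    rw [abs_le]
    constructor
    · linarith [le_abs_self T, abs_nonneg (X.b s)]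
    · linarith [hx s hs, le_abs_self (X.b s), abs_nonneg T]
  have h0 : 0 ≤ |T| + ∑ s ∈ S, |X.b s| :=
    add_nonneg (abs_nonneg _) (Finset.sum_nonneg fun _ _ => abs_nonneg _)
  have h2 : ‖L x‖ ≤ |T| + ∑ s ∈ S, |X.b s| := by
    rw [pi_norm_le_iff_of_nonneg h0]
    rintro ⟨s, hs⟩
    exact h1 s hs
  have h3 := hK.le_mul_dist x 0
  rw [map_zero, dist_zero_right, dist_zero_right] at h3
  calc |x k| = ‖x k‖ := (Real.norm_eq_abs _).symm
    _ ≤ ‖x‖ := norm_le_pi_norm x k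
    _ ≤ K * ‖L x‖ := h3
    _ ≤ K * (|T| + ∑ s ∈ S, |X.b s|) := mul_le_mul_of_nonneg_left h2 K.2

theorem t_PT2 : S_VIS → S_PT1 → S_PT2 := by
  classical
  intro hVIS hPT1 n X S κ _ R hF hspan
  set f : Fin 3 → ℝ := -∑ s ∈ S, X.a s with hf
  obtain ⟨C, hC⟩ := X.bd
  have hT : ∀ x, (∀ i, X.a i ⬝ᵥ x ≤ X.b i) → f ⬝ᵥ x < ∑ k, |f k| * C + 1 := by
    intro x hx
    linarith [dot_le (f := f) (hC x hx)]
  have key := hPT1 n X S κ R hF hspan f _ hT (bounded X S hspan _)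
  choose q s hs hq1 hq2 hq3 hv hm using key
  let Mx : κ → Prop := fun r => ∀ x, (∀ s ∈ S, X.a s ⬝ᵥ x ≤ X.b s) →
    f ⬝ᵥ x ≤ ∑ k, |f k| * C + 1 → X.a (s r) ⬝ᵥ x = X.b (s r) → x ≠ q r → Pool.Agent.X23.L3.lp f (q r - x)
  let φ : κ → S × Bool := fun r => (⟨s r, hs r⟩, decide (Mx r))
  have hφ : Function.Injective φ := by
    intro r r' h
    have e1 : s r = s r' := congrArg (fun p : S × Bool => (p.1 : Fin n)) h
    have e2 : Mx r ↔ Mx r' := by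
      have := congrArg (fun p : S × Bool => p.2) h
      simpa [φ] using this
    have hqq : q r = q r' := by
      by_contra hne
      by_cases hM : Mx r
      · have hM' := e2.1 hM
        exact lp_asymm f _ _ (hM (q r') (hq1 r') (hq2 r') (by rw [e1]; exact hq3 r') (Ne.symm hne))
          (hM' (q r) (hq1 r) (hq2 r) (by rw [← e1]; exact hq3 r) hne)
      · have hM' : ¬ Mx r' := fun h => hM (e2.2 h)
        have h1 := (hm r).resolve_left hM
        have h2 := (hm r').resolve_left hM'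
        exact lp_asymm f _ _ (h2 (q r) (hq1 r) (hq2 r) (by rw [← e1]; exact hq3 r) hne)
          (h1 (q r') (hq1 r') (hq2 r') (by rw [e1]; exact hq3 r') (Ne.symm hne))
    obtain ⟨i, hi, hiv⟩ := hv r
    obtain ⟨j, hj, hjv⟩ := hv r'
    rw [← hqq] at hjv
    have hjR : j ∈ R r := by
      refine hVIS n X (q r) (R r) i j hi hiv hjv fun k hk l _ hl ht => hF.cl r k l hk ?_ ht
      intro hlS
      exact absurd (hq1 r l hlS) (not_le.2 hl)
    exact hF.disj r r' j hjR hj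
  have hcard := Fintype.card_le_of_injective φ hφ
  rw [Fintype.card_prod, Fintype.card_bool, Fintype.card_coe] at hcard
  omega

end Pool.Agent.X283.LT
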